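import Pool.Agent.H19.OM.Stm

/-!
# The module CRT of the project OM
-/

set_option autoImplicit false
set_option linter.all false

namespace Pool.Agent.H23.OM

open Finset hiding val
open Pool.Agent.H19.OM

lemma val_congr {p L m m' M : ℕ} (h : p ^ L ∣ M) (hm : m ≡ m' [MOD M]) :
    val p L m = val p L m' := by
  unfold val
  congr 1
  refine filter_congr fun a ha => ?_
  have h1 : p ^ a ∣ M := (pow_dvd_pow p (mem_Icc.1 ha).2).trans h
  exact hm.dvd_iff h1

lemma crt_sum {A B : ℕ} (hA : A ≠ 0) (hB : B ≠ 0) (h : Nat.Coprime A B) (g : ℕ → ℕ → ℝ) :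
    ∑ n ∈ range (A * B), g (n % A) (n % B) = ∑ r ∈ range A, ∑ s ∈ range B, g r s := by
  rw [← sum_product']
  refine sum_nbij' (fun n => (n % A, n % B)) (fun q => (Nat.chineseRemainder h q.1 q.2 : ℕ))
    ?_ ?_ ?_ ?_ ?_
  · intro n _
    exact mem_product.2 ⟨mem_range.2 (Nat.mod_lt _ (Nat.pos_of_ne_zero hA)),
      mem_range.2 (Nat.mod_lt _ (Nat.pos_of_ne_zero hB))⟩
  · intro q _
    exact mem_range.2 (Nat.chineseRemainder_lt_mul h _ _ hA hB)
  · intro n hn
    have h1 := Nat.chineseRemainder_modEq_unique h (a := n % A) (b := n % B) (z := n)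
      (Nat.mod_modEq n A).symm (Nat.mod_modEq n B).symm
    exact (Nat.ModEq.eq_of_lt_of_lt h1 (mem_range.1 hn)
      (Nat.chineseRemainder_lt_mul h _ _ hA hB)).symm
  · rintro ⟨r, s⟩ hq
    obtain ⟨hr, hs⟩ := mem_product.1 hq
    have h1 := (Nat.chineseRemainder h r s).2
    refine Prod.ext ?_ ?_
    · exact Eq.trans h1.1 (Nat.mod_eq_of_lt (mem_range.1 hr))
    · exact Eq.trans h1.2 (Nat.mod_eq_of_lt (mem_range.1 hs))
  · intro n _
    rfl

lemma crt_pi {A B : ℕ} (hA : A ≠ 0) (hB : B ≠ 0) (h : Nat.Coprime A B) {k : ℕ}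
    (g : (Fin k → ℕ) → (Fin k → ℕ) → ℝ) :
    ∑ n ∈ Fintype.piFinset (fun _ : Fin k => range (A * B)),
      g (fun i => n i % A) (fun i => n i % B) =
    ∑ r ∈ Fintype.piFinset (fun _ : Fin k => range A),
      ∑ s ∈ Fintype.piFinset (fun _ : Fin k => range B), g r s := by
  rw [← sum_product']
  refine sum_nbij' (fun n => (fun i => n i % A, fun i => n i % B))
    (fun q i => (Nat.chineseRemainder h (q.1 i) (q.2 i) : ℕ)) ?_ ?_ ?_ ?_ ?_
  · intro n _
    exact mem_product.2 ⟨Fintype.mem_piFinset.2 fun i =>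
      mem_range.2 (Nat.mod_lt _ (Nat.pos_of_ne_zero hA)),
      Fintype.mem_piFinset.2 fun i => mem_range.2 (Nat.mod_lt _ (Nat.pos_of_ne_zero hB))⟩
  · intro q _
    exact Fintype.mem_piFinset.2 fun i =>
      mem_range.2 (Nat.chineseRemainder_lt_mul h _ _ hA hB)
  · intro n hn
    funext i
    have h1 := Nat.chineseRemainder_modEq_unique h (a := n i % A) (b := n i % B) (z := n i)
      (Nat.mod_modEq (n i) A).symm (Nat.mod_modEq (n i) B).symm
    exact (Nat.ModEq.eq_of_lt_of_lt h1 (mem_range.1 (Fintype.mem_piFinset.1 hn i))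
      (Nat.chineseRemainder_lt_mul h _ _ hA hB)).symm
  · rintro ⟨r, s⟩ hq
    obtain ⟨hr, hs⟩ := mem_product.1 hq
    refine Prod.ext (funext fun i => ?_) (funext fun i => ?_)
    · exact Eq.trans (Nat.chineseRemainder h (r i) (s i)).2.1
        (Nat.mod_eq_of_lt (mem_range.1 (Fintype.mem_piFinset.1 hr i)))
    · exact Eq.trans (Nat.chineseRemainder h (r i) (s i)).2.2
        (Nat.mod_eq_of_lt (mem_range.1 (Fintype.mem_piFinset.1 hs i)))
  · intro n _
    rfl

theorem t_CRT : S_CRT := by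
  intro L S T hST hp k φ
  have hM : Mo L (S ∪ T) = Mo L S * Mo L T := prod_union hST
  have hA : Mo L S ≠ 0 := prod_ne_zero_iff.2 fun p hpS =>
    pow_ne_zero _ (hp p (mem_union_left T hpS)).ne_zero
  have hB : Mo L T ≠ 0 := prod_ne_zero_iff.2 fun p hpT =>
    pow_ne_zero _ (hp p (mem_union_right S hpT)).ne_zero
  have hco : Nat.Coprime (Mo L S) (Mo L T) := by
    refine Nat.Coprime.prod_left fun p hpS => Nat.Coprime.prod_right fun q hqT => ?_
    refine Nat.Coprime.pow _ _ ((Nat.coprime_primes (hp p (mem_union_left T hpS))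
      (hp q (mem_union_right S hqT))).2 ?_)
    rintro rfl
    exact disjoint_left.1 hST hpS hqT
  have hdS : ∀ p ∈ S, p ^ L p ∣ Mo L S := fun p hpS => dvd_prod_of_mem (fun p => p ^ L p) hpS
  have hdT : ∀ p ∈ T, p ^ L p ∣ Mo L T := fun p hpT => dvd_prod_of_mem (fun p => p ^ L p) hpT
  have hvS : ∀ n i : ℕ, ∑ p ∈ S, val p (L p) (n + i) =
      ∑ p ∈ S, val p (L p) (n % Mo L S + i) := fun n i => sum_congr rfl fun p hpS =>
    val_congr (hdS p hpS) (Nat.ModEq.add_right i (Nat.mod_modEq n (Mo L S)).symm)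
  have hvT : ∀ n i : ℕ, ∑ p ∈ T, val p (L p) (n + i) =
      ∑ p ∈ T, val p (L p) (n % Mo L T + i) := fun n i => sum_congr rfl fun p hpT =>
    val_congr (hdT p hpT) (Nat.ModEq.add_right i (Nat.mod_modEq n (Mo L T)).symm)
  have hvS0 : ∀ n : ℕ, ∑ p ∈ S, val p (L p) n = ∑ p ∈ S, val p (L p) (n % Mo L S) := fun n =>
    hvS n 0
  have hvT0 : ∀ n : ℕ, ∑ p ∈ T, val p (L p) n = ∑ p ∈ T, val p (L p) (n % Mo L T) := fun n =>
    hvT n 0
  have hA' : (Mo L S : ℝ) ≠ 0 := Nat.cast_ne_zero.2 hA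
  have hB' : (Mo L T : ℝ) ≠ 0 := Nat.cast_ne_zero.2 hB
  constructor
  · unfold J
    rw [hM]
    have h1 : ∑ n ∈ range (Mo L S * Mo L T), φ (fun i => ∑ p ∈ S ∪ T, val p (L p) (n + i)) =
        ∑ r ∈ range (Mo L S), ∑ s ∈ range (Mo L T),
          φ ((fun i : Fin k => ∑ p ∈ S, val p (L p) (r + i)) +
            fun i : Fin k => ∑ p ∈ T, val p (L p) (s + i)) := by
      rw [← crt_sum hA hB hco (fun r s => φ ((fun i : Fin k => ∑ p ∈ S, val p (L p) (r + i)) +
            fun i : Fin k => ∑ p ∈ T, val p (L p) (s + i)))]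
      refine sum_congr rfl fun n _ => ?_
      congr 1
      funext i
      rw [sum_union hST, hvS, hvT]
      rfl
    rw [h1, sum_div, sum_div]
    refine sum_congr rfl fun r _ => ?_
    push_cast
    rw [mul_comm, ← div_div]
  · unfold I
    rw [hM]
    have h1 : ∑ n ∈ Fintype.piFinset (fun _ : Fin k => range (Mo L S * Mo L T)),
        φ (fun i => ∑ p ∈ S ∪ T, val p (L p) (n i)) =
        ∑ r ∈ Fintype.piFinset (fun _ : Fin k => range (Mo L S)),
          ∑ s ∈ Fintype.piFinset (fun _ : Fin k => range (Mo L T)),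
          φ ((fun i : Fin k => ∑ p ∈ S, val p (L p) (r i)) +
            fun i : Fin k => ∑ p ∈ T, val p (L p) (s i)) := by
      rw [← crt_pi hA hB hco (fun r s => φ ((fun i : Fin k => ∑ p ∈ S, val p (L p) (r i)) +
            fun i : Fin k => ∑ p ∈ T, val p (L p) (s i)))]
      refine sum_congr rfl fun n _ => ?_
      congr 1
      funext i
      rw [sum_union hST, hvS0, hvT0]
      rfl
    rw [h1, sum_div, sum_div]
    refine sum_congr rfl fun r _ => ?_
    push_cast
    rw [mul_pow, mul_comm, ← div_div]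

end Pool.Agent.H23.OM
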