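import Pool.Agent.H19.OM.Stm2
import Pool.Agent.H23.OM.Crt

/-!
# The module CA of the project OM
-/

set_option autoImplicit false
set_option linter.all false

namespace Pool.Agent.H23.OM

open Finset hiding val
open Pool.Agent.H19.OM

lemma crt_sumC {A B : ℕ} (hA : A ≠ 0) (hB : B ≠ 0) (h : Nat.Coprime A B) (g : ℕ → ℕ → ℂ) :
    ∑ n ∈ range (A * B), g (n % A) (n % B) = ∑ r ∈ range A, ∑ s ∈ range B, g r s := by
  rw [← sum_product']
  refine sum_nbij' (fun n => (n % A, n % B)) (fun q => (Nat.chineseRemainder h q.1 q.2 : ℕ))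
    ?_ ?_ ?_ ?_ ?_
  · intro n _
    exact mem_product.2 ⟨mem_range.2 (Nat.mod_lt _ (Nat.pos_of_ne_zero hA)),
      mem_range.2 (Nat.mod_lt _ (Nat.pos_of_ne_zero hB))⟩
  · intro q _
    exact mem_range.2 (Nat.chineseRemainder_lt_mul h _ _ hA hB)
  · intro n hn
    have h1 := Nat.chineseRemainder_modEq_unique h (a := n % A) (b := n % B) (z := n)
      (Nat.mod_modEq n A).symm (Nat.mod_modEq n B).symm
    exact (Nat.ModEq.eq_of_lt_of_lt h1 (mem_range.1 hn)
      (Nat.chineseRemainder_lt_mul h _ _ hA hB)).symm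
  · rintro ⟨r, s⟩ hq
    obtain ⟨hr, hs⟩ := mem_product.1 hq
    have h1 := (Nat.chineseRemainder h r s).2
    refine Prod.ext ?_ ?_
    · exact Eq.trans h1.1 (Nat.mod_eq_of_lt (mem_range.1 hr))
    · exact Eq.trans h1.2 (Nat.mod_eq_of_lt (mem_range.1 hs))
  · intro n _
    rfl

lemma stat_add (D m r : ℕ) (f g : ℕ → ℝ) :
    stat D m r (fun i => f i + g i) = stat D m r f + stat D m r g := by
  unfold stat
  rw [← sum_add_distrib]
  exact sum_congr rfl fun j _ => by ring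

lemma charJ_union (L : ℕ → ℕ) (S T : Finset ℕ) (m : ℕ) (θ : ℝ) (hST : Disjoint S T)
    (hp : ∀ p ∈ S ∪ T, p.Prime) : charJ L (S ∪ T) m θ = charJ L S m θ * charJ L T m θ := by
  have hM : Mo L (S ∪ T) = Mo L S * Mo L T := prod_union hST
  have hA : Mo L S ≠ 0 := prod_ne_zero_iff.2 fun p hpS =>
    pow_ne_zero _ (hp p (mem_union_left T hpS)).ne_zero
  have hB : Mo L T ≠ 0 := prod_ne_zero_iff.2 fun p hpT =>
    pow_ne_zero _ (hp p (mem_union_right S hpT)).ne_zero
  have hco : Nat.Coprime (Mo L S) (Mo L T) := by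
    refine Nat.Coprime.prod_left fun p hpS => Nat.Coprime.prod_right fun q hqT => ?_
    refine Nat.Coprime.pow _ _ ((Nat.coprime_primes (hp p (mem_union_left T hpS))
      (hp q (mem_union_right S hqT))).2 ?_)
    rintro rfl
    exact disjoint_left.1 hST hpS hqT
  have hdS : ∀ p ∈ S, p ^ L p ∣ Mo L S := fun p hpS => dvd_prod_of_mem (fun p => p ^ L p) hpS
  have hdT : ∀ p ∈ T, p ^ L p ∣ Mo L T := fun p hpT => dvd_prod_of_mem (fun p => p ^ L p) hpT
  have hvS : ∀ n i : ℕ, ∑ p ∈ S, val p (L p) (n + i) =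
      ∑ p ∈ S, val p (L p) (n % Mo L S + i) := fun n i => sum_congr rfl fun p hpS =>
    val_congr (hdS p hpS) (Nat.ModEq.add_right i (Nat.mod_modEq n (Mo L S)).symm)
  have hvT : ∀ n i : ℕ, ∑ p ∈ T, val p (L p) (n + i) =
      ∑ p ∈ T, val p (L p) (n % Mo L T + i) := fun n i => sum_congr rfl fun p hpT =>
    val_congr (hdT p hpT) (Nat.ModEq.add_right i (Nat.mod_modEq n (Mo L T)).symm)
  unfold charJ
  rw [hM]
  set gS : ℕ → ℂ := fun n => Complex.exp
    (((θ * stat 2 m 0 (fun i => ((∑ p ∈ S, val p (L p) (n + i) : ℕ) : ℝ)) : ℝ) : ℂ) * Complex.I)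
    with hgS
  set gT : ℕ → ℂ := fun n => Complex.exp
    (((θ * stat 2 m 0 (fun i => ((∑ p ∈ T, val p (L p) (n + i) : ℕ) : ℝ)) : ℝ) : ℂ) * Complex.I)
    with hgT
  have h1 : ∑ n ∈ range (Mo L S * Mo L T), Complex.exp
      (((θ * stat 2 m 0 (fun i => ((∑ p ∈ S ∪ T, val p (L p) (n + i) : ℕ) : ℝ)) : ℝ) : ℂ) *
        Complex.I) = ∑ r ∈ range (Mo L S), ∑ s ∈ range (Mo L T), gS r * gT s := by
    rw [← crt_sumC hA hB hco (fun r s => gS r * gT s)]
    refine sum_congr rfl fun n _ => ?_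
    have e : (fun i => ((∑ p ∈ S ∪ T, val p (L p) (n + i) : ℕ) : ℝ)) =
        fun i => ((∑ p ∈ S, val p (L p) (n % Mo L S + i) : ℕ) : ℝ) +
          ((∑ p ∈ T, val p (L p) (n % Mo L T + i) : ℕ) : ℝ) := by
      funext i
      rw [sum_union hST, hvS, hvT, Nat.cast_add]
    rw [e, stat_add, mul_add, Complex.ofReal_add, add_mul, Complex.exp_add]
  rw [h1, ← sum_mul_sum, Nat.cast_mul, div_mul_div_comm]

theorem t_CA : S_CA := by
  intro L S m θ hp
  induction S using Finset.induction_on with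
  | empty =>
    rw [prod_empty]
    unfold charJ
    simp [Mo, stat]
  | insert p S hpS ih =>
    rw [prod_insert hpS, ← ih fun q hq => hp q (mem_insert_of_mem hq), insert_eq]
    exact charJ_union L {p} S m θ (disjoint_singleton_left.2 hpS) (by rwa [← insert_eq])

end Pool.Agent.H23.OM
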