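import Pool.Agent.H19.OM.Stm3
import Pool.Agent.H23.OM.Crt

/-!
# The module K3 of the project OM: the exponential moment over a period
-/

set_option autoImplicit false
set_option linter.all false

namespace Pool.Agent.H23.OM

open Finset hiding val
open Pool.Agent.H19.OM

lemma cnt_le {d e k r : ℕ} (hd : 0 < d) (hk : k ≤ d * e) :
    ((range k).filter fun i => d ∣ r + i).card ≤ e := by
  conv_rhs => rw [← card_range e]
  refine card_le_card_of_injOn (fun i => i / d) ?_ ?_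
  · intro i hi
    have h1 := mem_range.1 (mem_filter.1 (mem_coe.1 hi)).1
    exact mem_coe.2 (mem_range.2 (Nat.div_lt_of_lt_mul (h1.trans_le hk)))
  · intro i hi j hj hij
    have h1 := (mem_filter.1 (mem_coe.1 hi)).2
    have h2 := (mem_filter.1 (mem_coe.1 hj)).2
    have h3 : r + i ≡ r + j [MOD d] :=
      (Nat.modEq_zero_iff_dvd.2 h1).trans (Nat.modEq_zero_iff_dvd.2 h2).symm
    have h4 : i % d = j % d := Nat.ModEq.add_left_cancel' r h3
    have h5 : i / d = j / d := hij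
    rw [← Nat.div_add_mod i d, ← Nat.div_add_mod j d, h4, h5]

lemma sum_val_le {p l k r : ℕ} (hp : 2 ≤ p) : ∑ i : Fin k, val p l (r + i) ≤ k + l := by
  have hp0 : 0 < p := by omega
  have h1 : ∑ i : Fin k, val p l (r + i) =
      ∑ a ∈ Icc 1 l, ((range k).filter fun i => p ^ a ∣ r + i).card := by
    rw [Fin.sum_univ_eq_sum_range (fun i => val p l (r + i)) k]
    simp only [val, card_filter]
    exact sum_comm
  rw [h1]
  calc ∑ a ∈ Icc 1 l, ((range k).filter fun i => p ^ a ∣ r + i).card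
      ≤ ∑ a ∈ Icc 1 l, (k / p ^ a + 1) :=
        sum_le_sum fun a _ => cnt_le (pow_pos hp0 a)
          (Nat.lt_mul_div_succ k (pow_pos hp0 a)).le
    _ = ∑ a ∈ Icc 1 l, k / p ^ a + l := by
        rw [sum_add_distrib]
        simp
    _ ≤ k + l := by
        have h2 := Nat.geom_sum_Ico_le hp k (l + 1)
        have h3 : Icc 1 l = Ico 1 (l + 1) := by
          ext x
          rw [mem_Icc, mem_Ico]
          omega
        have h4 : k / (p - 1) ≤ k := Nat.div_le_self _ _
        rw [h3]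
        omega

lemma pv {p l m : ℕ} (h : val p l m ≠ 0) : val p l m ∈ Icc 1 l ∧ p ^ val p l m ∣ m := by
  have hv : val p l m = ((Icc 1 l).filter (fun a => p ^ a ∣ m)).card := rfl
  rw [hv] at h ⊢
  set s := (Icc 1 l).filter (fun a => p ^ a ∣ m) with hs
  have hne : s.Nonempty := card_ne_zero.1 h
  have hmax := s.max'_mem hne
  obtain ⟨h1, h2⟩ := mem_filter.1 hmax
  have hsub : s ⊆ Icc 1 (s.max' hne) := fun a ha =>
    mem_Icc.2 ⟨(mem_Icc.1 (mem_filter.1 ha).1).1, s.le_max' a ha⟩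
  have hc := card_le_card hsub
  rw [Nat.card_Icc] at hc
  have hle : s.card ≤ s.max' hne := by omega
  exact ⟨mem_Icc.2 ⟨Nat.one_le_iff_ne_zero.2 h, hle.trans (mem_Icc.1 h1).2⟩,
    (pow_dvd_pow p hle).trans h2⟩

lemma point {p l k r : ℕ} (hp : p.Prime) (hk : k < p) :
    (25 : ℝ) ^ (∑ i : Fin k, val p l (r + i)) ≤
      1 + ∑ i : Fin k, ∑ a ∈ Icc 1 l, if p ^ a ∣ r + i then (25 : ℝ) ^ a else 0 := by
  have hnn : ∀ i : Fin k, 0 ≤ ∑ a ∈ Icc 1 l, if p ^ a ∣ r + i then (25 : ℝ) ^ a else 0 :=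
    fun i => sum_nonneg fun a _ => by split_ifs <;> positivity
  by_cases h : ∃ i : Fin k, val p l (r + i) ≠ 0
  · obtain ⟨i, hi⟩ := h
    obtain ⟨h1, h2⟩ := pv hi
    have h3 : ∑ i : Fin k, val p l (r + i) = val p l (r + i) := by
      refine Fintype.sum_eq_single i fun j hj => ?_
      by_contra h4
      obtain ⟨h5, h6⟩ := pv h4
      have h7 : p ∣ r + i := (dvd_pow_self p hi).trans h2
      have h8 : p ∣ r + j := (dvd_pow_self p h4).trans h6
      have h9 : (i : ℕ) ≡ j [MOD p] := Nat.ModEq.add_left_cancel' r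
        ((Nat.modEq_zero_iff_dvd.2 h7).trans (Nat.modEq_zero_iff_dvd.2 h8).symm)
      have h10 : (i : ℕ) = j :=
        Nat.ModEq.eq_of_lt_of_lt h9 (i.2.trans hk) (j.2.trans hk)
      exact hj (Fin.ext h10.symm)
    rw [h3]
    have h4 : (25 : ℝ) ^ val p l (r + i) ≤
        ∑ a ∈ Icc 1 l, if p ^ a ∣ r + i then (25 : ℝ) ^ a else 0 := by
      have h5 := single_le_sum (f := fun a => if p ^ a ∣ r + i then (25 : ℝ) ^ a else 0)
        (fun a _ => by
          show (0 : ℝ) ≤ if p ^ a ∣ r + i then (25 : ℝ) ^ a else 0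
          split_ifs <;> positivity) h1
      refine le_trans (le_of_eq ?_) h5
      exact (if_pos h2).symm
    have h5 := single_le_sum (f := fun i : Fin k =>
      ∑ a ∈ Icc 1 l, if p ^ a ∣ r + i then (25 : ℝ) ^ a else 0) (fun i _ => hnn i) (mem_univ i)
    exact (h4.trans h5).trans (by linarith)
  · push Not at h
    rw [Finset.sum_eq_zero fun i _ => h i, pow_zero]
    have := sum_nonneg (fun i (_ : i ∈ (univ : Finset (Fin k))) => hnn i)
    linarith

/-- the exponential moment -/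
noncomputable def Ex (L : ℕ → ℕ) (S : Finset ℕ) (k : ℕ) : ℝ :=
  J L S (fun z : Fin k → ℕ => (25 : ℝ) ^ (∑ i, z i))

lemma Ex_nonneg (L : ℕ → ℕ) (S : Finset ℕ) (k : ℕ) : 0 ≤ Ex L S k :=
  div_nonneg (sum_nonneg fun _ _ => pow_nonneg (by norm_num) _) (Nat.cast_nonneg _)

lemma Ex_insert (L : ℕ → ℕ) (S : Finset ℕ) (k p : ℕ) (hpS : p ∉ S)
    (hp : ∀ q ∈ insert p S, q.Prime) : Ex L (insert p S) k = Ex L {p} k * Ex L S k := by
  have h := (t_CRT L {p} S (disjoint_singleton_left.2 hpS) (by rwa [← insert_eq]) k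
    (fun z : Fin k → ℕ => (25 : ℝ) ^ (∑ i, z i))).1
  have h2 : ∀ u : Fin k → ℕ, J L S (fun v : Fin k → ℕ => (25 : ℝ) ^ (∑ i, (u + v) i)) =
      25 ^ (∑ i, u i) * Ex L S k := by
    intro u
    unfold Ex J
    rw [mul_div_assoc', mul_sum]
    congr 1
    refine sum_congr rfl fun n _ => ?_
    simp only [Pi.add_apply]
    rw [sum_add_distrib, pow_add]
  have h3 : Ex L (insert p S) k = J L ({p} ∪ S) (fun z : Fin k → ℕ => (25 : ℝ) ^ (∑ i, z i)) := by
    rw [← insert_eq]
    rfl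
  rw [h3, h]
  simp only [h2]
  have h4 : ∀ c : ℝ, J L {p} (fun u : Fin k → ℕ => 25 ^ (∑ i, u i) * c) = Ex L {p} k * c := by
    intro c
    unfold Ex J
    rw [← sum_mul, div_mul_eq_mul_div]
  exact h4 _

lemma Ex_one {p k : ℕ} {L : ℕ → ℕ} : Ex L {p} k =
    (∑ r ∈ range (p ^ L p), (25 : ℝ) ^ (∑ i : Fin k, val p (L p) (r + i))) / (p : ℝ) ^ L p := by
  have hM : Mo L {p} = p ^ L p := prod_singleton _ _
  unfold Ex J
  rw [hM, Nat.cast_pow]
  simp only [sum_singleton]

lemma Ex_small {p k l : ℕ} {L : ℕ → ℕ} (hp : p.Prime) (hl : L p ≤ l) :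
    Ex L {p} k ≤ 25 ^ (k + l) := by
  have hp0 : (0 : ℝ) < p := by exact_mod_cast hp.pos
  rw [Ex_one, div_le_iff₀ (pow_pos hp0 _)]
  calc ∑ r ∈ range (p ^ L p), (25 : ℝ) ^ (∑ i : Fin k, val p (L p) (r + i))
      ≤ ∑ r ∈ range (p ^ L p), (25 : ℝ) ^ (k + l) := by
        refine sum_le_sum fun r _ => pow_le_pow_right₀ (by norm_num) ?_
        exact (sum_val_le hp.two_le).trans (by omega)
    _ = 25 ^ (k + l) * (p : ℝ) ^ L p := by
        rw [sum_const, card_range, nsmul_eq_mul, Nat.cast_pow, mul_comm]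

lemma Ex_large {p k : ℕ} {L : ℕ → ℕ} (hp : p.Prime) (hk : k < p) (h50 : 50 < p) :
    Ex L {p} k ≤ Real.exp (50 * k * (1 / (p : ℝ))) := by
  have hp0 : (0 : ℝ) < p := by exact_mod_cast hp.pos
  have hp50 : (50 : ℝ) < p := by exact_mod_cast h50
  rw [Ex_one, div_le_iff₀ (pow_pos hp0 _)]
  set l := L p with hl
  have hx0 : (0 : ℝ) ≤ 25 / p := by positivity
  have hx1 : (25 : ℝ) / p ≤ 1 / 2 := by
    rw [div_le_iff₀ hp0]
    linarith
  have hg : ∑ a ∈ Icc 1 l, (25 / (p : ℝ)) ^ a ≤ 50 / p := by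
    have h3 : Icc 1 l = Ico 1 (l + 1) := by
      ext x
      rw [mem_Icc, mem_Ico]
      omega
    rw [h3]
    refine (geom_sum_Ico_le_of_lt_one hx0 (lt_of_le_of_lt hx1 (by norm_num))).trans ?_
    rw [pow_one, div_le_iff₀ (by linarith)]
    have e : (50 : ℝ) / p = 2 * (25 / p) := by ring
    rw [e]
    nlinarith
  calc ∑ r ∈ range (p ^ l), (25 : ℝ) ^ (∑ i : Fin k, val p l (r + i))
      ≤ ∑ r ∈ range (p ^ l), (1 + ∑ i : Fin k, ∑ a ∈ Icc 1 l,
          if p ^ a ∣ r + i then (25 : ℝ) ^ a else 0) := sum_le_sum fun r _ => point hp hk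
    _ = (p : ℝ) ^ l + ∑ i : Fin k, ∑ a ∈ Icc 1 l, ∑ r ∈ range (p ^ l),
          (if p ^ a ∣ r + i then (25 : ℝ) ^ a else 0) := by
        rw [sum_add_distrib, sum_const, card_range, nsmul_one, Nat.cast_pow]
        congr 1
        rw [sum_comm]
        exact sum_congr rfl fun i _ => sum_comm
    _ ≤ (p : ℝ) ^ l + ∑ i : Fin k, ∑ a ∈ Icc 1 l, (p : ℝ) ^ l * (25 / p) ^ a := by
        refine add_le_add le_rfl (sum_le_sum fun i _ => sum_le_sum fun a ha => ?_)
        rw [← sum_filter, sum_const, nsmul_eq_mul]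
        have ha2 := (mem_Icc.1 ha).2
        have h2 : (((range (p ^ l)).filter fun r => p ^ a ∣ r + i).card : ℝ) ≤
            (p : ℝ) ^ (l - a) := by
          have h3 : ((range (p ^ l)).filter fun r => p ^ a ∣ i + r).card ≤ p ^ (l - a) :=
            cnt_le (pow_pos hp.pos a) (by rw [← pow_add, Nat.add_sub_cancel' ha2])
          have h4 : ((range (p ^ l)).filter fun r => p ^ a ∣ r + i) =
              ((range (p ^ l)).filter fun r => p ^ a ∣ i + r) :=
            filter_congr fun r _ => by rw [add_comm]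
          rw [h4]
          exact_mod_cast h3
        calc (((range (p ^ l)).filter fun r => p ^ a ∣ r + i).card : ℝ) * 25 ^ a
            ≤ (p : ℝ) ^ (l - a) * 25 ^ a := mul_le_mul_of_nonneg_right h2 (by positivity)
          _ = (p : ℝ) ^ l * (25 / p) ^ a := by
              have h5 : (p : ℝ) ^ l = (p : ℝ) ^ (l - a) * (p : ℝ) ^ a := by
                rw [← pow_add, Nat.sub_add_cancel ha2]
              have h6 : (p : ℝ) ^ a ≠ 0 := (pow_pos hp0 a).ne'
              rw [h5, div_pow, mul_assoc, mul_div_cancel₀ _ h6]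
    _ = (p : ℝ) ^ l * (1 + k * ∑ a ∈ Icc 1 l, (25 / (p : ℝ)) ^ a) := by
        rw [sum_const, card_univ, Fintype.card_fin, nsmul_eq_mul, ← mul_sum]
        ring
    _ ≤ (p : ℝ) ^ l * (1 + k * (50 / p)) := by
        refine mul_le_mul_of_nonneg_left (add_le_add le_rfl
          (mul_le_mul_of_nonneg_left hg (Nat.cast_nonneg k))) (pow_pos hp0 l).le
    _ ≤ Real.exp (50 * k * (1 / (p : ℝ))) * (p : ℝ) ^ l := by
        rw [mul_comm]
        refine mul_le_mul_of_nonneg_right ?_ (pow_pos hp0 l).le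
        have h7 := Real.add_one_le_exp (50 * k * (1 / (p : ℝ)))
        refine le_trans (le_of_eq ?_) h7
        ring

theorem t_K3 : S_K3 := by
  intro S Lf k L hS
  show Ex Lf S k ≤ _
  have hE : ∀ T ⊆ S, Ex Lf T k = ∏ p ∈ T, Ex Lf {p} k := by
    intro T
    induction T using Finset.induction_on with
    | empty =>
      intro _
      rw [prod_empty]
      unfold Ex J
      simp [Mo]
    | insert p T hpT ih =>
      intro hT
      rw [prod_insert hpT, Ex_insert Lf T k p hpT fun q hq => (hS q (hT hq)).1,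
        ih ((subset_insert p T).trans hT)]
  have hB : ∀ p ∈ S, Ex Lf {p} k ≤
      (if p ≤ k ∨ p ≤ 50 then (25 : ℝ) ^ (k + L) else 1) *
        Real.exp (50 * k * (1 / (p : ℝ))) := by
    intro p hp
    obtain ⟨h1, h2, h3⟩ := hS p hp
    have h4 : (1 : ℝ) ≤ Real.exp (50 * k * (1 / (p : ℝ))) := Real.one_le_exp (by positivity)
    split_ifs with h5
    · refine (Ex_small h1 (h3 h5)).trans ?_
      exact le_mul_of_one_le_right (by positivity) h4
    · push Not at h5
      rw [one_mul]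
      exact Ex_large h1 h5.1 h5.2
  have hc : (S.filter fun p => p ≤ k ∨ p ≤ 50).card ≤ k + 50 := by
    have h1 : (S.filter fun p => p ≤ k ∨ p ≤ 50) ⊆ Icc 1 (k + 50) := by
      intro p hp
      obtain ⟨h2, h3⟩ := mem_filter.1 hp
      have h4 := (hS p h2).1.one_le
      exact mem_Icc.2 ⟨h4, by omega⟩
    refine (card_le_card h1).trans ?_
    rw [Nat.card_Icc]
    omega
  calc Ex Lf S k = ∏ p ∈ S, Ex Lf {p} k := hE S subset_rfl
    _ ≤ ∏ p ∈ S, ((if p ≤ k ∨ p ≤ 50 then (25 : ℝ) ^ (k + L) else 1) *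
        Real.exp (50 * k * (1 / (p : ℝ)))) :=
      prod_le_prod (fun p _ => Ex_nonneg _ _ _) hB
    _ = ((25 : ℝ) ^ (k + L)) ^ (S.filter fun p => p ≤ k ∨ p ≤ 50).card *
        Real.exp (50 * k * ∑ p ∈ S, 1 / (p : ℝ)) := by
      rw [prod_mul_distrib, ← Real.exp_sum, ← mul_sum, ← prod_filter, prod_const]
    _ ≤ (25 : ℝ) ^ ((k + 50) * (k + L)) * Real.exp (50 * k * ∑ p ∈ S, 1 / (p : ℝ)) := by
      refine mul_le_mul_of_nonneg_right ?_ (Real.exp_pos _).le
      rw [← pow_mul]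
      refine pow_le_pow_right₀ (by norm_num) ?_
      rw [mul_comm (k + 50)]
      exact Nat.mul_le_mul_left _ hc

end Pool.Agent.H23.OM
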