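import Pool.Agent.H19.OM.Stm4
import Pool.Agent.H10.OM.AR2
import Pool.Agent.H23.OM.K3

/-!
# The module MOM of the project OM: the second moment over a period
-/

set_option autoImplicit false
set_option linter.all false

namespace Pool.Agent.H23.OM

open Finset hiding val
open Pool.Agent.H19.OM

/-- the mean of a function of the number of prime factors -/
noncomputable def Em (L : ℕ → ℕ) (S : Finset ℕ) (f : ℕ → ℝ) : ℝ :=
  J L S (fun z : Fin 1 → ℕ => f (z 0))

lemma Em_eq (L : ℕ → ℕ) (S : Finset ℕ) (f : ℕ → ℝ) :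
    Em L S f = (∑ n ∈ range (Mo L S), f (∑ p ∈ S, val p (L p) n)) / Mo L S := rfl

lemma Em_add (L : ℕ → ℕ) (S : Finset ℕ) (f g : ℕ → ℝ) :
    Em L S (fun v => f v + g v) = Em L S f + Em L S g := by
  rw [Em_eq, Em_eq, Em_eq, sum_add_distrib, add_div]

lemma Em_mul (L : ℕ → ℕ) (S : Finset ℕ) (c : ℝ) (f : ℕ → ℝ) :
    Em L S (fun v => c * f v) = c * Em L S f := by
  rw [Em_eq, Em_eq, ← mul_sum, mul_div_assoc]

lemma Mo_ne {L : ℕ → ℕ} {S : Finset ℕ} (hp : ∀ p ∈ S, p.Prime) : Mo L S ≠ 0 :=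
  prod_ne_zero_iff.2 fun p hpS => pow_ne_zero _ (hp p hpS).ne_zero

lemma Em_const {L : ℕ → ℕ} {S : Finset ℕ} (hp : ∀ p ∈ S, p.Prime) (c : ℝ) :
    Em L S (fun _ => c) = c := by
  have h : (Mo L S : ℝ) ≠ 0 := Nat.cast_ne_zero.2 (Mo_ne hp)
  rw [Em_eq, sum_const, card_range, nsmul_eq_mul, mul_div_cancel_left₀ _ h]

lemma Em_insert (L : ℕ → ℕ) (S : Finset ℕ) (p : ℕ) (hpS : p ∉ S)
    (hp : ∀ q ∈ insert p S, q.Prime) (f : ℕ → ℝ) :
    Em L (insert p S) f = Em L {p} (fun u => Em L S (fun v => f (u + v))) := by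
  have h := (t_CRT L {p} S (disjoint_singleton_left.2 hpS) (by rwa [← insert_eq]) 1
    (fun z : Fin 1 → ℕ => f (z 0))).1
  rw [insert_eq]
  exact h

lemma Em_one {p : ℕ} {L : ℕ → ℕ} (f : ℕ → ℝ) : Em L {p} f =
    (∑ r ∈ range (p ^ L p), f (val p (L p) r)) / (p : ℝ) ^ L p := by
  have hM : Mo L {p} = p ^ L p := prod_singleton _ _
  rw [Em_eq, hM, Nat.cast_pow]
  simp only [sum_singleton]

lemma Em_nonneg (L : ℕ → ℕ) (S : Finset ℕ) (f : ℕ → ℝ) (hf : ∀ v, 0 ≤ f v) : 0 ≤ Em L S f :=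
  div_nonneg (sum_nonneg fun _ _ => hf _) (Nat.cast_nonneg _)

lemma first {p : ℕ} {L : ℕ → ℕ} (hp : p.Prime) :
    Em L {p} (fun v => (v : ℝ)) ≤ 2 * (1 / (p : ℝ)) := by
  have hp0 : (0 : ℝ) < p := by exact_mod_cast hp.pos
  have hp2 : (2 : ℝ) ≤ p := by exact_mod_cast hp.two_le
  rw [Em_one, div_le_iff₀ (pow_pos hp0 _)]
  set l := L p with hl
  have hx0 : (0 : ℝ) ≤ 1 / p := by positivity
  have hx1 : (1 : ℝ) / p ≤ 1 / 2 := one_div_le_one_div_of_le (by norm_num) hp2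
  have hg : ∑ a ∈ Icc 1 l, (1 / (p : ℝ)) ^ a ≤ 2 * (1 / p) := by
    have h3 : Icc 1 l = Ico 1 (l + 1) := by
      ext x
      rw [mem_Icc, mem_Ico]
      omega
    rw [h3]
    refine (geom_sum_Ico_le_of_lt_one hx0 (lt_of_le_of_lt hx1 (by norm_num))).trans ?_
    rw [pow_one, div_le_iff₀ (by linarith)]
    nlinarith
  calc ∑ r ∈ range (p ^ l), (val p l r : ℝ)
      = ∑ a ∈ Icc 1 l, (((range (p ^ l)).filter fun r => p ^ a ∣ r).card : ℝ) := by
        simp only [val, card_filter, Nat.cast_sum]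
        exact sum_comm
    _ ≤ ∑ a ∈ Icc 1 l, (p : ℝ) ^ l * (1 / p) ^ a := by
        refine sum_le_sum fun a ha => ?_
        have ha2 := (mem_Icc.1 ha).2
        have h3 : ((range (p ^ l)).filter fun r => p ^ a ∣ 0 + r).card ≤ p ^ (l - a) :=
          cnt_le (pow_pos hp.pos a) (by rw [← pow_add, Nat.add_sub_cancel' ha2])
        simp only [zero_add] at h3
        have h2 : (((range (p ^ l)).filter fun r => p ^ a ∣ r).card : ℝ) ≤
            (p : ℝ) ^ (l - a) := by exact_mod_cast h3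
        refine h2.trans (le_of_eq ?_)
        have h5 : (p : ℝ) ^ l = (p : ℝ) ^ (l - a) * (p : ℝ) ^ a := by
          rw [← pow_add, Nat.sub_add_cancel ha2]
        have h6 : (p : ℝ) ^ a ≠ 0 := (pow_pos hp0 a).ne'
        rw [h5, div_pow, one_pow, mul_assoc, mul_one_div_cancel h6, mul_one]
    _ = (p : ℝ) ^ l * ∑ a ∈ Icc 1 l, (1 / (p : ℝ)) ^ a := by rw [mul_sum]
    _ ≤ (p : ℝ) ^ l * (2 * (1 / p)) := mul_le_mul_of_nonneg_left hg (pow_pos hp0 l).le
    _ = 2 * (1 / (p : ℝ)) * (p : ℝ) ^ l := by ring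

lemma second {p : ℕ} {L : ℕ → ℕ} (hp : p.Prime) :
    Em L {p} (fun v => (v : ℝ) ^ 2) ≤ 6 * (1 / (p : ℝ)) := by
  have hp0 : (0 : ℝ) < p := by exact_mod_cast hp.pos
  rw [Em_one, div_le_iff₀ (pow_pos hp0 _)]
  have h := Pool.Agent.H10.OM.sum_sq_le p (L p) 0 hp.two_le
  simp only [add_zero] at h
  refine h.trans (le_of_eq ?_)
  ring

theorem t_MOM : S_MOM := by
  intro L S hS
  have key : ∀ T ⊆ S, Em L T (fun v => (v : ℝ)) ≤ 2 * ∑ p ∈ T, 1 / (p : ℝ) ∧
      Em L T (fun v => (v : ℝ) ^ 2) ≤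
        6 * ∑ p ∈ T, 1 / (p : ℝ) + 4 * (∑ p ∈ T, 1 / (p : ℝ)) ^ 2 := by
    intro T
    induction T using Finset.induction_on with
    | empty =>
      intro _
      constructor
      · rw [Em_eq]
        simp [Mo]
      · rw [Em_eq]
        simp [Mo]
    | insert p T hpT ih =>
      intro hT
      obtain ⟨i1, i2⟩ := ih ((subset_insert p T).trans hT)
      have hpp : p.Prime := hS p (hT (mem_insert_self p T))
      have hP1 : ∀ q ∈ ({p} : Finset ℕ), q.Prime := fun q hq => by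
        rw [mem_singleton.1 hq]
        exact hpp
      have hPT : ∀ q ∈ T, q.Prime := fun q hq => hS q (hT (mem_insert_of_mem hq))
      have hPi : ∀ q ∈ insert p T, q.Prime := fun q hq => hS q (hT hq)
      have f1 := first (L := L) hpp
      have f2 := second (L := L) hpp
      have n0 := Em_nonneg L {p} (fun v => (v : ℝ)) fun v => Nat.cast_nonneg v
      have n1 := Em_nonneg L T (fun v => (v : ℝ)) fun v => Nat.cast_nonneg v
      have hq0 : (0 : ℝ) ≤ 1 / p := by positivity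
      have hs0 : 0 ≤ ∑ q ∈ T, 1 / (q : ℝ) := sum_nonneg fun q _ => by positivity
      rw [sum_insert hpT, Em_insert L T p hpT hPi, Em_insert L T p hpT hPi]
      have e1 : (fun u : ℕ => Em L T (fun v => ((u + v : ℕ) : ℝ))) =
          fun u : ℕ => (u : ℝ) + Em L T (fun v => (v : ℝ)) := by
        funext u
        have : (fun v : ℕ => ((u + v : ℕ) : ℝ)) = fun v : ℕ => (u : ℝ) + (v : ℝ) := by
          funext v
          push_cast
          rfl
        rw [this, Em_add, Em_const hPT]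
      have e2 : (fun u : ℕ => Em L T (fun v => ((u + v : ℕ) : ℝ) ^ 2)) =
          fun u : ℕ => (u : ℝ) ^ 2 + (2 * Em L T (fun v => (v : ℝ)) * (u : ℝ) +
            Em L T (fun v => (v : ℝ) ^ 2)) := by
        funext u
        have : (fun v : ℕ => ((u + v : ℕ) : ℝ) ^ 2) =
            fun v : ℕ => (u : ℝ) ^ 2 + (2 * (u : ℝ) * (v : ℝ) + (v : ℝ) ^ 2) := by
          funext v
          push_cast
          ring
        rw [this, Em_add, Em_const hPT, Em_add, Em_mul]
        ring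
      rw [e1, e2, Em_add, Em_const hP1, Em_add, Em_add, Em_mul, Em_const hP1]
      constructor
      · linarith
      · have h3 : Em L T (fun v => (v : ℝ)) * Em L {p} (fun v => (v : ℝ)) ≤
            (2 * ∑ q ∈ T, 1 / (q : ℝ)) * (2 * (1 / (p : ℝ))) :=
          mul_le_mul i1 f1 n0 (by positivity)
        nlinarith
  exact (key S subset_rfl).2

end Pool.Agent.H23.OM
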