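import Pool.Agent.H19.OM.Stm

/-!
# The module SML of the project OM
-/

set_option autoImplicit false
set_option linter.all false

namespace Pool.Agent.H23.OM

open Finset hiding val
open MeasureTheory ProbabilityTheory
open Pool.Agent.H19.OM
open scoped NNReal

lemma J_le {L : ℕ → ℕ} {S : Finset ℕ} {k : ℕ} {φ : (Fin k → ℕ) → ℝ} {B : ℝ} (hB : 0 ≤ B)
    (h : ∀ z, |φ z| ≤ B) : |J L S φ| ≤ B := by
  unfold J
  rw [abs_div, Nat.abs_cast]
  have h1 : |∑ n ∈ range (Mo L S), φ (fun i => ∑ p ∈ S, H19.OM.val p (L p) (n + i))| ≤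
      (Mo L S : ℝ) * B := by
    refine (abs_sum_le_sum_abs _ _).trans ((sum_le_sum fun n _ => h _).trans_eq ?_)
    rw [sum_const, card_range, nsmul_eq_mul]
  rcases Nat.eq_zero_or_pos (Mo L S) with h0 | h0
  · rw [h0, Nat.cast_zero, div_zero]
    exact hB
  · have h2 : (0 : ℝ) < Mo L S := Nat.cast_pos.2 h0
    rw [div_le_iff₀ h2, mul_comm]
    exact h1

lemma I_le {L : ℕ → ℕ} {S : Finset ℕ} {k : ℕ} {φ : (Fin k → ℕ) → ℝ} {B : ℝ} (hB : 0 ≤ B)
    (h : ∀ z, |φ z| ≤ B) : |I L S φ| ≤ B := by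
  unfold I
  rw [abs_div, abs_pow, Nat.abs_cast]
  have h1 : |∑ n ∈ Fintype.piFinset (fun _ : Fin k => range (Mo L S)),
      φ (fun i => ∑ p ∈ S, H19.OM.val p (L p) (n i))| ≤ (Mo L S : ℝ) ^ k * B := by
    refine (abs_sum_le_sum_abs _ _).trans ((sum_le_sum fun n _ => h _).trans_eq ?_)
    rw [sum_const, Fintype.card_piFinset, nsmul_eq_mul]
    simp
  rcases (by positivity : (0 : ℝ) ≤ (Mo L S : ℝ) ^ k).eq_or_lt with h0 | h0
  · rw [← h0, div_zero]
    exact hB
  · rw [div_le_iff₀ h0, mul_comm]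
    exact h1

lemma integrable_bd (a : ℝ≥0) {k : ℕ} {f : (Fin k → ℕ) → ℝ} {B : ℝ} (h : ∀ z, |f z| ≤ B) :
    Integrable f (Measure.pi (fun _ : Fin k => poissonMeasure a)) := by
  refine Integrable.of_bound (Measurable.of_discrete.aestronglyMeasurable) B
    (Filter.Eventually.of_forall fun z => ?_)
  rw [Real.norm_eq_abs]
  exact h z

lemma P_I (a : ℝ≥0) {L : ℕ → ℕ} {S : Finset ℕ} {k : ℕ} {F : (Fin k → ℕ) → (Fin k → ℕ) → ℝ} {B : ℝ}
    (h : ∀ w u, |F w u| ≤ B) :
    P a (fun w => I L S (fun u => F w u)) = I L S (fun u => P a (fun w => F w u)) := by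
  unfold P I
  rw [integral_div, integral_finsetSum]
  exact fun n _ => integrable_bd a fun z => h z _

lemma P_sub (a : ℝ≥0) {k : ℕ} {f g : (Fin k → ℕ) → ℝ} {B : ℝ} (hf : ∀ z, |f z| ≤ B)
    (hg : ∀ z, |g z| ≤ B) : P a f - P a g = P a (fun w => f w - g w) := by
  unfold P
  rw [integral_sub (integrable_bd a hf) (integrable_bd a hg)]

lemma I_sub {L : ℕ → ℕ} {S : Finset ℕ} {k : ℕ} (f g : (Fin k → ℕ) → ℝ) :
    I L S f - I L S g = I L S (fun u => f u - g u) := by
  unfold I
  rw [← sub_div, ← sum_sub_distrib]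

lemma J_empty (L : ℕ → ℕ) {k : ℕ} (φ : (Fin k → ℕ) → ℝ) : J L ∅ φ = φ 0 := by
  unfold J Mo
  simp
  rfl

lemma I_empty (L : ℕ → ℕ) {k : ℕ} (φ : (Fin k → ℕ) → ℝ) : I L ∅ φ = φ 0 := by
  unfold I Mo
  simp only [prod_empty, sum_empty, Nat.cast_one, one_pow, div_one]
  rw [sum_const, Fintype.card_piFinset]
  simp
  rfl

theorem t_SML (hSW : S_SW) (hCRT : S_CRT) : S_SML := by
  obtain ⟨K, hK, hSW⟩ := hSW
  refine ⟨K, hK, fun S => ?_⟩
  induction S using Finset.induction_on with
  | empty =>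
    intro k L a _ _ _ φ _
    simp only [J_empty, I_empty, sub_self, abs_zero, sum_empty, mul_zero, zero_div]
    exact le_rfl
  | insert p S hpS ih =>
    intro k L a hk hka hS φ hφ
    have hp := hS p (mem_insert_self p S)
    have hS' : ∀ q ∈ S, q.Prime ∧ 1 ≤ L q ∧ (L q : ℝ) ^ 2 ≤ a := fun q hq =>
      hS q (mem_insert_of_mem hq)
    have hdis : Disjoint ({p} : Finset ℕ) S := disjoint_singleton_left.2 hpS
    have hpr : ∀ q ∈ ({p} : Finset ℕ) ∪ S, q.Prime := by
      intro q hq
      rcases mem_union.1 hq with h | h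
      · rw [mem_singleton.1 h]
        exact hp.1
      · exact (hS' q h).1
    have hins : insert p S = {p} ∪ S := insert_eq p S
    set c : ℝ := (k : ℝ) / (p * Real.sqrt p) + Real.sqrt k / p with hc
    set d : ℝ := ∑ q ∈ S, ((k : ℝ) / (q * Real.sqrt q) + Real.sqrt k / q) with hd
    have hd0 : 0 ≤ d := sum_nonneg fun q _ => by positivity
    have hbd : 0 ≤ K * d / a := by positivity
    rw [sum_insert hpS, hins]
    -- the functions
    have e1 : ∀ w : Fin k → ℕ, J L ({p} ∪ S) (fun u => φ (w + u)) =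
        J L {p} (fun u => (fun x => J L S (fun v => φ (x + v))) (w + u)) := by
      intro w
      rw [(hCRT L {p} S hdis hpr k (fun u => φ (w + u))).1]
      simp only [add_assoc]
    have e2 : ∀ w : Fin k → ℕ, I L ({p} ∪ S) (fun u => φ (w + u)) =
        I L {p} (fun u => I L S (fun v => φ (w + u + v))) := by
      intro w
      rw [(hCRT L {p} S hdis hpr k (fun u => φ (w + u))).2]
      simp only [add_assoc]
    simp only [e1, e2]
    have hψ : Bd (fun x => J L S (fun v => φ (x + v))) := fun x =>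
      J_le zero_le_one fun v => hφ _
    have h1 := hSW p k L a hp.1 hp.2.1 hk hka hp.2.2 _ hψ
    have h2 : P a (fun w => I L {p} (fun u => J L S (fun v => φ (w + u + v)))) =
        I L {p} (fun u => P a (fun w => J L S (fun v => φ (w + u + v)))) :=
      P_I a (B := 1) (F := fun w u => J L S (fun v => φ (w + u + v))) fun w u =>
        J_le zero_le_one fun v => hφ _
    have h3 : P a (fun w => I L {p} (fun u => I L S (fun v => φ (w + u + v)))) =
        I L {p} (fun u => P a (fun w => I L S (fun v => φ (w + u + v)))) :=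
      P_I a (B := 1) (F := fun w u => I L S (fun v => φ (w + u + v))) fun w u =>
        I_le zero_le_one fun v => hφ _
    have h4 : |I L {p} (fun u => P a (fun w => J L S (fun v => φ (w + u + v)))) -
        I L {p} (fun u => P a (fun w => I L S (fun v => φ (w + u + v))))| ≤ K * d / a := by
      rw [I_sub]
      refine I_le hbd fun u => ?_
      have h5 := ih k L a hk hka hS' (fun x => φ (x + u)) fun z => hφ _
      have h6 : ∀ w v : Fin k → ℕ, w + v + u = w + u + v := fun w v => add_right_comm w v u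
      simp only [h6] at h5
      exact h5
    beta_reduce at h1
    rw [h2] at h1
    rw [h3]
    refine (abs_sub_le _ _ _).trans ((add_le_add h1 h4).trans_eq ?_)
    ring

end Pool.Agent.H23.OM
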